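import Pool.Agent.W467.LO.D

/-!
# Commuting symmetries: joint generalised eigensections (helper467)
-/

set_option autoImplicit false
set_option maxHeartbeats 400000

open MvPolynomial H960VB H938TB Pool.Agent.W615 Pool.Agent.W467.FO

namespace Pool.Agent.W467.CO

section linear

variable {V : Type*} [AddCommGroup V] [Module ℂ V]

theorem ge_comp {A B : Module.End ℂ V} (h : Commute A B) (α β : ℂ) :
    ∀ (K i j : ℕ) (s : V), i + j ≤ K → ((A - α • 1) ^ i) s = 0 → ((B - β • 1) ^ j) s = 0 →
      ((A * B - (α * β) • 1) ^ K) s = 0 := by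
  have hA : Commute A (B - β • 1) := h.sub_right ((Commute.one_right A).smul_right β)
  have hB : Commute (A - α • 1) (B - β • 1) :=
    hA.sub_left ((Commute.one_left _).smul_left α)
  have hAA : Commute A (A - α • 1) :=
    (Commute.refl A).sub_right ((Commute.one_right A).smul_right α)
  intro K
  induction K with
  | zero =>
    intro i j s hij hi hj
    obtain rfl : i = 0 := by omega
    rw [pow_zero, Module.End.one_apply] at hi
    rw [hi, map_zero]
  | succ K ih =>
    intro i j s hij hi hj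
    rcases Nat.eq_zero_or_pos i with h0 | h0
    · subst h0
      rw [pow_zero, Module.End.one_apply] at hi
      rw [hi, map_zero]
    rcases Nat.eq_zero_or_pos j with h1 | h1
    · subst h1
      rw [pow_zero, Module.End.one_apply] at hj
      rw [hj, map_zero]
    obtain ⟨i', rfl⟩ : ∃ i', i = i' + 1 := ⟨i - 1, by omega⟩
    obtain ⟨j', rfl⟩ : ∃ j', j = j' + 1 := ⟨j - 1, by omega⟩
    have e1 : (A * B - (α * β) • 1) s = A ((B - β • 1) s) + β • (A - α • 1) s := by
      simp only [LinearMap.sub_apply, LinearMap.smul_apply, Module.End.one_apply,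
        Module.End.mul_apply, map_sub, map_smul]
      module
    rw [pow_succ, Module.End.mul_apply, e1, map_add, map_smul]
    have a1 : ((A - α • 1) ^ (i' + 1)) (A ((B - β • 1) s)) = 0 := by
      have h2 := (hAA.symm.pow_left (i' + 1)).eq
      have h3 := (hB.pow_left (i' + 1)).eq
      have h4 := LinearMap.congr_fun h2 ((B - β • 1) s)
      have h5 := LinearMap.congr_fun h3 s
      rw [Module.End.mul_apply, Module.End.mul_apply] at h4 h5
      rw [h4, h5, hi, map_zero, map_zero]
    have a2 : ((B - β • 1) ^ j') (A ((B - β • 1) s)) = 0 := by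
      have h2 := (hA.symm.pow_left j').eq
      have h4 := LinearMap.congr_fun h2 ((B - β • 1) s)
      rw [Module.End.mul_apply, Module.End.mul_apply] at h4
      rw [pow_succ, Module.End.mul_apply] at hj
      rw [h4, hj, map_zero]
    have b1 : ((A - α • 1) ^ i') ((A - α • 1) s) = 0 := by
      rw [pow_succ, Module.End.mul_apply] at hi
      exact hi
    have b2 : ((B - β • 1) ^ (j' + 1)) ((A - α • 1) s) = 0 := by
      have h3 := (hB.symm.pow_left (j' + 1)).eq
      have h5 := LinearMap.congr_fun h3 s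
      rw [Module.End.mul_apply, Module.End.mul_apply] at h5
      rw [h5, hj, map_zero]
    rw [ih (i' + 1) j' _ (by omega) a1 a2, ih i' (j' + 1) _ (by omega) b1 b2, smul_zero, add_zero]

theorem smul_shift (A : Module.End ℂ V) (c x : ℂ) :
    c • A - (c * x) • (1 : Module.End ℂ V) = c • (A - x • 1) := by
  apply LinearMap.ext
  intro s
  simp only [LinearMap.sub_apply, LinearMap.smul_apply, Module.End.one_apply]
  module

theorem ge_unique {A : Module.End ℂ V} {α β : ℂ} {s : V} (hs : s ≠ 0)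
    (h1 : ∃ k : ℕ, ((A - α • 1) ^ k) s = 0) (h2 : ∃ k : ℕ, ((A - β • 1) ^ k) s = 0) : α = β := by
  by_contra hne
  have h3 := A.disjoint_genEigenspace hne ⊤ ⊤
  exact hs (Submodule.disjoint_def.1 h3 s ((A.mem_maxGenEigenspace α s).2 h1)
    ((A.mem_maxGenEigenspace β s).2 h2))

theorem ge_ne_zero {A : Module.End ℂ V} (hA : Function.Injective A) {α : ℂ} {s : V} (hs : s ≠ 0)
    (h1 : ∃ k : ℕ, ((A - α • 1) ^ k) s = 0) : α ≠ 0 := by
  rintro rfl
  obtain ⟨k, hk⟩ := h1
  rw [zero_smul, sub_zero] at hk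
  have h2 : ∀ k : ℕ, (A ^ k) s = 0 → s = 0 := by
    intro k
    induction k with
    | zero => intro h; rwa [pow_zero, Module.End.one_apply] at h
    | succ k ih =>
      intro h
      rw [pow_succ', Module.End.mul_apply] at h
      exact ih (hA (by rw [h, map_zero]))
  exact hs (h2 k hk)

end linear

variable {n : ℕ} {E : Bundle2 n}

/-- joint generalised eigensections span the fibres -/
theorem exists_joint {ι : Type*} {T : ι → ((Fin (n + 1) → ℂ) →ₗ[ℂ] (Fin (n + 1) → ℂ))}
    (O : ∀ i, GOp E (T i)) (W : Wedge (triv E))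
    (hcomm : ∀ i j d, Commute ((O i).lin d) ((O j).lin d)) {x : Fin (n + 1) → ℂ} (hx : x ≠ 0) :
    ∃ (d : ℤ) (χ ψ : ι → ℂ) (s t : S0 E d), (∀ i, (O i).GE d (χ i) s) ∧
      (∀ i, (O i).GE d (ψ i) t) ∧ eval x (W.wd s t) ≠ 0 := by
  obtain ⟨d, hd⟩ := exists_deg W
  obtain ⟨G, G', hG, hG', h⟩ := hd x hx
  by_contra hc
  push Not at hc
  apply h
  have hspan : Submodule.span ℂ {s : S0 E d | ∃ χ : ι → ℂ, ∀ i, (O i).GE d (χ i) s} = ⊤ := by
    rw [eq_top_iff, ← Module.End.iSup_iInf_maxGenEigenspace_eq_top_of_iSup_maxGenEigenspace_eq_top_of_commute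
      (fun i => (O i).lin d) (fun i j _ => hcomm i j d)
      (fun i => Module.End.iSup_maxGenEigenspace_eq_top _)]
    refine iSup_le fun χ v hv => Submodule.subset_span ⟨χ, fun i => ?_⟩
    rw [Submodule.mem_iInf] at hv
    have := hv i
    rw [Module.End.mem_maxGenEigenspace] at this
    exact this
  let F : S0 E d →ₗ[ℂ] S0 E d →ₗ[ℂ] ℂ := (wdB W d d).compr₂
    (aeval x : MvPolynomial (Fin (n + 1)) ℂ →ₐ[ℂ] ℂ).toLinearMap
  have hF : F = 0 := by
    refine LinearMap.ext_on hspan fun s hs => LinearMap.ext_on hspan fun t ht => ?_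
    obtain ⟨χ, hχ⟩ := hs
    obtain ⟨ψ, hψ⟩ := ht
    exact hc d χ ψ s t hχ hψ
  have h1 := congrArg (fun f : S0 E d →ₗ[ℂ] S0 E d →ₗ[ℂ] ℂ => f ⟨G, hG⟩ ⟨G', hG'⟩) hF
  exact h1

end Pool.Agent.W467.CO
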