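import Pool.Agent.W467.CO.A

/-!
# Equivariant bundles for commutative groups (helper467)
-/

set_option autoImplicit false
set_option maxHeartbeats 400000

open MvPolynomial H960VB H938TB Pool.Agent.W615 Pool.Agent.W467.FO Pool.Agent.W467.LO

namespace Pool.Agent.W467.CO

variable {n : ℕ} {E : Bundle2 n}

/-- at a point of a large eigenspace there is only one type -/
theorem one_type (hE : ¬ E.Splits) {T : (Fin (n + 1) → ℂ) →ₗ[ℂ] (Fin (n + 1) → ℂ)} (O : GOp E T)
    (W : Wedge (triv E)) (hn : 1 ≤ n) (hT : Function.Injective T) {P : Fin (n + 1) → ℂ}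
    (hP0 : P ≠ 0) {a : ℂ}
    (hP : T P = a • P) (h3 : 3 ≤ Module.finrank ℂ (LinearMap.ker (T - a • LinearMap.id)))
    {d : ℤ} {α β : ℂ} {s t : S0 E d} (hs : O.GE d α s) (ht : O.GE d β t)
    (hsP : evv (s : Vec E.a n) P ≠ 0) (htP : evv (t : Vec E.a n) P ≠ 0) : α = β := by
  obtain ⟨k, S, hk2, hkn, hSi, hTS, hr⟩ := exists_S a h3
  have ha : a ≠ 0 := by
    rintro rfl
    rw [zero_smul] at hP
    exact hP0 (hT (by rw [hP, map_zero]))
  obtain ⟨κ, hκ0, hκ⟩ := O.det W hn hT
  have hES : ¬ (E.pull S hSi).Splits := fun h =>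
    hE (Bundle2.splits_of_pull (n - k) k n hk2 (by omega) E S hSi h)
  obtain ⟨u, hu, hu'⟩ := O.typeV W hκ0 hκ (by omega) S hSi ha hTS hES
  obtain ⟨y, hy⟩ := hr P hP
  have key : ∀ {r : S0 E d}, evv (r : Vec E.a n) P ≠ 0 → ∃ i, rs S r.1 i ≠ 0 := by
    intro r hrP
    by_contra hc
    push Not at hc
    apply hrP
    funext i
    have h1 : eval P (r.1 i) = 0 := by
      rw [← hy, ← eval_lsub]
      have h2 : lsub S (r.1 i) = 0 := hc i
      rw [h2, map_zero]
    exact h1
  rw [hu' d α s hs (key hsP), hu' d β t ht (key htP)]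

theorem main_le (hE : ¬ E.Splits) {G : Type*} [CommGroup G]
    {T : G → ((Fin (n + 1) → ℂ) →ₗ[ℂ] (Fin (n + 1) → ℂ))} (O : ∀ g, GOp E (T g))
    (hT : ∀ g, Function.Injective (T g))
    (hcomm : ∀ g h d, Commute ((O g).lin d) ((O h).lin d))
    (hmul : ∀ g h d, ∃ c : ℂ, c ≠ 0 ∧ (O (g * h)).lin d = c • ((O g).lin d * (O h).lin d))
    {P : Fin (n + 1) → ℂ} (hP0 : P ≠ 0) {g : G}
    (hg : g ∈ Subgroup.closure {h : G | ∃ a : ℂ, T h P = a • P ∧
      3 ≤ Module.finrank ℂ (LinearMap.ker (T h - a • LinearMap.id))})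
    {l m : ℂ} (hml : m ≠ l) (hgP : T g P = m • P)
    (hl3 : 3 ≤ Module.finrank ℂ (LinearMap.ker (T g - l • LinearMap.id)))
    {Q : Fin (n + 1) → ℂ} (hQ0 : Q ≠ 0) (hQ : T g Q = l • Q) {p q : ℤ} (hqp : q ≤ p)
    (hs : E.SplitsOn P Q p q) : (m / l) ^ (p - q) = 1 := by
  have hm : m ≠ 0 := by
    rintro rfl
    rw [zero_smul] at hgP
    exact hP0 (hT g (by rw [hgP, map_zero]))
  have hl : l ≠ 0 := by
    rintro rfl
    rw [zero_smul] at hQ
    exact hQ0 (hT g (by rw [hQ, map_zero]))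
  have hPQ : LinearIndependent ℂ ![P, Q] := by
    rw [LinearIndependent.pair_iff]
    intro a b hab
    have h1 := congrArg (T g) hab
    rw [map_add, map_smul, map_smul, hgP, hQ, map_zero] at h1
    have h2 : (a * (m - l)) • P = 0 := by
      have h3 : (a * (m - l)) • P = (a • m • P + b • l • Q) - l • (a • P + b • Q) := by
        module
      rw [h3, h1, hab, smul_zero, sub_zero]
    have h4 : a * (m - l) = 0 := (smul_eq_zero.1 h2).resolve_right hP0
    have h5 : a = 0 := (mul_eq_zero.1 h4).resolve_right (sub_ne_zero.2 hml)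
    rw [h5, zero_smul, zero_add] at hab
    exact ⟨h5, (smul_eq_zero.1 hab).resolve_right hQ0⟩
  obtain ⟨k, S, hk2, hkn, hSi, hTS, hr⟩ := exists_S l hl3
  have hn : 1 ≤ n := by omega
  obtain ⟨W⟩ := exists_wedge hn (triv E)
  -- the joint generalised eigensections at `P`
  obtain ⟨d, χ, ψ, s, t, hχ, hψ, hst⟩ := exists_joint O W hcomm hP0
  have hli := (W.ind P hP0 _ _ s.2.ker t.2.ker).1 hst
  have hsP : evv (s : Vec E.a n) P ≠ 0 := hli.ne_zero 0
  have htP : evv (t : Vec E.a n) P ≠ 0 := hli.ne_zero 1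
  have hnz : ∀ {r : S0 E d}, evv (r : Vec E.a n) P ≠ 0 → r ≠ 0 := by
    intro r hr0 h
    apply hr0
    rw [h]
    funext i
    exact map_zero _
  have hinj : ∀ g, Function.Injective ((O g).lin d) := by
    intro g
    rw [← LinearMap.ker_eq_bot, LinearMap.ker_eq_bot']
    intro r hr
    apply Subtype.ext
    funext i
    refine (O g).inj d r.1 r.2 (fun j => ?_) i
    have h1 := congrArg Subtype.val hr
    exact congrFun h1 j
  have mulχ : ∀ {r : S0 E d} {χ : G → ℂ}, r ≠ 0 → (∀ i, (O i).GE d (χ i) r) →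
      (∀ a b c, (O (a * b)).lin d = c • ((O a).lin d * (O b).lin d) → c ≠ 0 →
        χ (a * b) = c * (χ a * χ b)) ∧ ∀ a, χ a ≠ 0 := by
    intro r χ hr0 hχ
    refine ⟨fun a b c hc hc0 => ?_, fun a => ge_ne_zero (hinj a) hr0 (hχ a)⟩
    obtain ⟨i, hi⟩ := hχ a
    obtain ⟨j, hj⟩ := hχ b
    refine ge_unique (A := (O (a * b)).lin d) hr0 (hχ (a * b)) ⟨i + j, ?_⟩
    have h1 := ge_comp (hcomm a b d) (χ a) (χ b) (i + j) i j r (le_refl _) hi hj
    have h2 : (O (a * b)).lin d - (c * (χ a * χ b)) • (1 : Module.End ℂ (S0 E d)) =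
        c • ((O a).lin d * (O b).lin d - (χ a * χ b) • 1) := by
      rw [hc]
      exact smul_shift _ _ _
    rw [h2, smul_pow, LinearMap.smul_apply, h1, smul_zero]
  obtain ⟨mχ, nχ⟩ := mulχ (hnz hsP) hχ
  obtain ⟨mψ, nψ⟩ := mulχ (hnz htP) hψ
  -- the subgroup of elements with one type at `P`
  have hone : χ 1 = ψ 1 := by
    obtain ⟨c, hc0, hc⟩ := hmul 1 1 d
    have h1 := mχ 1 1 c hc hc0
    have h2 := mψ 1 1 c hc hc0
    rw [mul_one] at h1 h2
    have h3 : χ 1 * 1 = χ 1 * (c * χ 1) := by rw [mul_one]; linear_combination h1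
    have h4 : ψ 1 * 1 = ψ 1 * (c * ψ 1) := by rw [mul_one]; linear_combination h2
    have h5 := mul_left_cancel₀ (nχ 1) h3
    have h6 := mul_left_cancel₀ (nψ 1) h4
    exact mul_left_cancel₀ hc0 (h5.symm.trans h6)
  let H : Subgroup G :=
    { carrier := {a | χ a = ψ a}
      mul_mem' := by
        intro a b ha hb
        have ha' : χ a = ψ a := ha
        have hb' : χ b = ψ b := hb
        show χ (a * b) = ψ (a * b)
        obtain ⟨c, hc0, hc⟩ := hmul a b d
        rw [mχ a b c hc hc0, mψ a b c hc hc0, ha', hb']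
      one_mem' := hone
      inv_mem' := by
        intro a ha
        have ha' : χ a = ψ a := ha
        show χ a⁻¹ = ψ a⁻¹
        obtain ⟨c, hc0, hc⟩ := hmul a a⁻¹ d
        have h1 := mχ a a⁻¹ c hc hc0
        have h2 := mψ a a⁻¹ c hc hc0
        rw [mul_inv_cancel] at h1 h2
        apply mul_left_cancel₀ (mul_ne_zero hc0 (nχ a))
        rw [mul_assoc, ← h1, hone, h2, ha', mul_assoc] }
  have hgH : g ∈ H := by
    refine (Subgroup.closure_le H).2 ?_ hg
    rintro h ⟨a, hPa, h3⟩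
    exact one_type hE (O h) W hn (hT h) hP0 hPa h3 (hχ h) (hψ h) hsP htP
  have heq : χ g = ψ g := hgH
  -- the relation at `P`
  obtain ⟨κ, hκ0, hκ⟩ := (O g).det W hn (hT g)
  have k1 := point_rel (O g) W hκ hgP (hχ g) (hψ g) hst
  rw [← heq] at k1
  have hES : ¬ (E.pull S hSi).Splits := fun h =>
    hE (Bundle2.splits_of_pull (n - k) k n hk2 (by omega) E S hSi h)
  obtain ⟨u, hu, hu'⟩ := (O g).typeV W hκ0 hκ (by omega) S hSi hl hTS hES
  obtain ⟨hsum, τ, ⟨d₁, α₁, s₁, hs1, hs2, hs3⟩, ⟨d₂, α₂, s₂, hs1', hs2', hs3'⟩, -⟩ :=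
    lineK (O g) W hPQ hm hl hgP hQ hs hqp
  have hτ : τ * l ^ q = u := by
    have h1 := hu' d₁ α₁ s₁ hs1 (by
      by_contra hc
      push Not at hc
      obtain ⟨y, hy⟩ := hr Q hQ
      apply hs2
      funext i
      have h1 : eval Q (s₁.1 i) = 0 := by
        rw [← hy, ← eval_lsub]
        have h2 : lsub S (s₁.1 i) = 0 := hc i
        rw [h2, map_zero]
      exact h1)
    rw [hs3, zpow_add₀ hl] at h1
    apply mul_right_cancel₀ (zpow_ne_zero d₁ hl)
    rw [← h1]
    ring
  -- types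
  set x := χ g / m ^ d with hx
  have hχx : χ g = x * m ^ d := by rw [hx, div_mul_cancel₀ _ (zpow_ne_zero _ hm)]
  have hα₂ : α₂ = (τ * m ^ q) * m ^ d₂ := by
    rw [hs3', zpow_add₀ hm]
    ring
  have h2t := two_types (O g) W hκ0 hκ hP0 hm hgP (a := x) (b := τ * m ^ q)
    (by rw [← hχx]; exact hχ g) (by rw [← hα₂]; exact hs1') hsP hs2'
  have hxx : x * x = κ * m ^ W.κ.1 := by
    rw [hχx] at k1
    have h1 : m ^ d * m ^ d ≠ 0 := mul_ne_zero (zpow_ne_zero _ hm) (zpow_ne_zero _ hm)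
    apply mul_right_cancel₀ h1
    have h2 : m ^ W.κ.1 * (m ^ d * m ^ d) = m ^ (d + d + W.κ.1) := by
      rw [← zpow_add₀ hm, ← zpow_add₀ hm]
      congr 1
      ring
    rw [mul_assoc κ, h2, ← k1]
    ring
  have hττ : (τ * m ^ q) * (τ * m ^ q) = κ * m ^ W.κ.1 := by
    rcases h2t with h | h
    · rw [← h]
      exact hxx
    · have hx0 : x ≠ 0 := by
        rintro h0
        rw [h0, mul_zero] at hxx
        exact mul_ne_zero hκ0 (zpow_ne_zero _ hm) hxx.symm
      have h3 : τ * m ^ q = x := by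
        apply mul_left_cancel₀ hx0
        rw [h, hxx]
      rw [h3]
      exact hxx
  rw [← hτ] at hu
  rw [hsum] at hu hττ
  exact rel_of hκ0 hm hl hττ hu

/-- an operator which commutes up to a scalar with one having a single type at `P` -/
theorem comm_large (hE : ¬ E.Splits) {T T' : (Fin (n + 1) → ℂ) →ₗ[ℂ] (Fin (n + 1) → ℂ)}
    (O : GOp E T) (O' : GOp E T') (W : Wedge (triv E)) (hn : 1 ≤ n)
    (hT : Function.Injective T) (hT' : Function.Injective T') {P : Fin (n + 1) → ℂ}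
    (hP0 : P ≠ 0) {a m : ℂ} (hP : T P = a • P)
    (h3 : 3 ≤ Module.finrank ℂ (LinearMap.ker (T - a • LinearMap.id))) (hP' : T' P = m • P)
    {ε : ℂ}
    (hc : ∀ d, O.lin d * O'.lin d = ε • (O'.lin d * O.lin d)) : ε = 1 := by
  obtain ⟨κ, hκ0, hκ⟩ := O'.det W hn hT'
  obtain ⟨d, hd⟩ := O.exists_ge W
  obtain ⟨α, β, s, t, hs, ht, hst⟩ := hd P hP0
  have hm : m ≠ 0 := by
    rintro rfl
    rw [zero_smul] at hP'
    exact hP0 (hT' (by rw [hP', map_zero]))
  have hli := (W.ind P hP0 _ _ s.2.ker t.2.ker).1 hst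
  have hsP : evv (s : Vec E.a n) P ≠ 0 := hli.ne_zero 0
  have h1 : eval P (W.wd (O'.D s) (O'.D t)) ≠ 0 := by
    rw [hκ d d s t s.2 t.2, map_mul, eval_C, eval_lsub, hP', eval_smul_homZ (wd_homZ W s.2 t.2)]
    exact mul_ne_zero hκ0 (mul_ne_zero (zpow_ne_zero _ hm) hst)
  have hAs : evv ((O'.lin d s : S0 E d) : Vec E.a n) P ≠ 0 :=
    ((W.ind P hP0 _ _ (O'.sec _ _ s.2).ker (O'.sec _ _ t.2).ker).1 h1).ne_zero 0
  have hge : O.GE d (ε * α) (O'.lin d s) := by
    obtain ⟨k, hk⟩ := hs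
    refine ⟨k, ?_⟩
    have h4 : ∀ (k : ℕ) (r : S0 E d), ((O.lin d - (ε * α) • 1) ^ k) (O'.lin d r) =
        ε ^ k • O'.lin d (((O.lin d - α • 1) ^ k) r) := by
      intro k
      induction k with
      | zero => intro r; rw [pow_zero, pow_zero, pow_zero, Module.End.one_apply,
          Module.End.one_apply, one_smul]
      | succ k ih =>
        intro r
        have h5 := LinearMap.congr_fun (hc d) r
        rw [LinearMap.smul_apply, Module.End.mul_apply, Module.End.mul_apply] at h5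
        have h6 : (O.lin d - (ε * α) • 1) (O'.lin d r) =
            ε • O'.lin d ((O.lin d - α • 1) r) := by
          simp only [LinearMap.sub_apply, LinearMap.smul_apply, Module.End.one_apply, map_sub,
            map_smul]
          rw [h5]
          module
        have e1 : ((O.lin d - α • 1) ^ (k + 1)) r =
            ((O.lin d - α • 1) ^ k) ((O.lin d - α • 1) r) := by
          rw [pow_succ, Module.End.mul_apply]
        have e2 : ((O.lin d - (ε * α) • 1) ^ (k + 1)) (O'.lin d r) =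
            ((O.lin d - (ε * α) • 1) ^ k) ((O.lin d - (ε * α) • 1) (O'.lin d r)) := by
          rw [pow_succ, Module.End.mul_apply]
        rw [e1, e2, h6, map_smul, ih, smul_smul, pow_succ, mul_comm]
    rw [h4, hk, map_zero, smul_zero]
  have h2 := one_type hE O W hn hT hP0 hP h3 hge hs hAs hsP
  have hα : α ≠ 0 := by
    have hinj : Function.Injective (O.lin d) := by
      rw [← LinearMap.ker_eq_bot, LinearMap.ker_eq_bot']
      intro r hr
      apply Subtype.ext
      funext i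
      refine O.inj d r.1 r.2 (fun j => ?_) i
      have h1 := congrArg Subtype.val hr
      exact congrFun h1 j
    refine ge_ne_zero hinj (s := s) ?_ hs
    rintro rfl
    apply hsP
    funext i
    exact map_zero _
  exact mul_right_cancel₀ hα (h2.trans (one_mul α).symm)

theorem main_eq (hE : ¬ E.Splits) {G : Type*} [CommGroup G]
    {T : G → ((Fin (n + 1) → ℂ) →ₗ[ℂ] (Fin (n + 1) → ℂ))} (O : ∀ g, GOp E (T g))
    (hT : ∀ g, Function.Injective (T g)) (hT1 : T 1 = LinearMap.id)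
    (hTm : ∀ g h, T (g * h) = T g ∘ₗ T h)
    (hmul : ∀ g h, ∃ c : ℂ, c ≠ 0 ∧ ∀ d, (O (g * h)).lin d = c • ((O g).lin d * (O h).lin d))
    {P : Fin (n + 1) → ℂ} (hP0 : P ≠ 0) {g : G}
    (hg : g ∈ Subgroup.closure {h : G | ∃ a : ℂ, T h P = a • P ∧
      3 ≤ Module.finrank ℂ (LinearMap.ker (T h - a • LinearMap.id))})
    {l m : ℂ} (hml : m ≠ l) (hgP : T g P = m • P)
    (hl3 : 3 ≤ Module.finrank ℂ (LinearMap.ker (T g - l • LinearMap.id)))
    {Q : Fin (n + 1) → ℂ} (hQ0 : Q ≠ 0) (hQ : T g Q = l • Q) {p q : ℤ} (hqp : q ≤ p)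
    (hs : E.SplitsOn P Q p q) : (m / l) ^ (p - q) = 1 := by
  have hn : 1 ≤ n := by
    have h1 := Submodule.finrank_le (LinearMap.ker (T g - l • LinearMap.id))
    rw [Module.finrank_fintype_fun_eq_card, Fintype.card_fin] at h1
    omega
  obtain ⟨W⟩ := exists_wedge hn (triv E)
  set L : Set G := {h : G | ∃ a : ℂ, T h P = a • P ∧
      3 ≤ Module.finrank ℂ (LinearMap.ker (T h - a • LinearMap.id))} with hL
  have hinj : ∀ g d, Function.Injective ((O g).lin d) := by
    intro g d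
    rw [← LinearMap.ker_eq_bot, LinearMap.ker_eq_bot']
    intro r hr
    apply Subtype.ext
    funext i
    refine (O g).inj d r.1 r.2 (fun j => ?_) i
    have h1 := congrArg Subtype.val hr
    exact congrFun h1 j
  have fixP : ∀ k ∈ Subgroup.closure L, ∃ a : ℂ, T k P = a • P := by
    intro k hk
    induction hk using Subgroup.closure_induction with
    | mem x hx =>
      obtain ⟨a, ha, -⟩ := hx
      exact ⟨a, ha⟩
    | one => exact ⟨1, by rw [hT1, LinearMap.id_apply, one_smul]⟩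
    | mul x y _ _ hx hy =>
      obtain ⟨a, ha⟩ := hx
      obtain ⟨b, hb⟩ := hy
      refine ⟨b * a, ?_⟩
      rw [hTm, LinearMap.comp_apply, hb, map_smul, ha, smul_smul]
    | inv x _ hx =>
      obtain ⟨a, ha⟩ := hx
      have h1 : T x⁻¹ (T x P) = P := by
        rw [← LinearMap.comp_apply, ← hTm, inv_mul_cancel, hT1, LinearMap.id_apply]
      have ha0 : a ≠ 0 := by
        rintro rfl
        rw [zero_smul] at ha
        rw [ha, map_zero] at h1
        exact hP0 h1.symm
      refine ⟨a⁻¹, ?_⟩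
      rw [ha, map_smul] at h1
      rw [← h1, smul_smul, inv_mul_cancel₀ ha0, one_smul, h1]
  have scal : ∀ d, ∃ c : ℂ, (O 1).lin d = c • 1 := by
    intro d
    obtain ⟨c, hc0, hc⟩ := hmul 1 1
    have h1 := hc d
    rw [mul_one] at h1
    refine ⟨c⁻¹, ?_⟩
    apply LinearMap.ext
    intro s
    have h2 := LinearMap.congr_fun h1 s
    rw [LinearMap.smul_apply, Module.End.mul_apply, ← map_smul] at h2
    have h3 := hinj 1 d h2
    rw [LinearMap.smul_apply, Module.End.one_apply, h3, smul_smul, inv_mul_cancel₀ hc0, one_smul,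
      ← h3]
  have hcomm : ∀ k ∈ Subgroup.closure L, ∀ h ∈ Subgroup.closure L, ∀ d,
      Commute ((O k).lin d) ((O h).lin d) := by
    intro k hk h hh
    obtain ⟨b, hb⟩ := fixP k hk
    induction hh using Subgroup.closure_induction with
    | mem x hx =>
      obtain ⟨a, ha, h3⟩ := hx
      obtain ⟨c, hc0, hc⟩ := hmul k x
      obtain ⟨c', hc0', hc'⟩ := hmul x k
      have h4 : ∀ d, (O x).lin d * (O k).lin d = (c / c') • ((O k).lin d * (O x).lin d) := by
        intro d
        have h5 := hc d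
        rw [mul_comm k x, hc' d] at h5
        have h6 := congrArg (fun A => c'⁻¹ • A) h5
        simp only [smul_smul] at h6
        rw [inv_mul_cancel₀ hc0', one_smul] at h6
        rw [h6, div_eq_inv_mul]
      have h7 := comm_large hE (O x) (O k) W hn (hT x) (hT k) hP0 ha h3 hb
        h4
      intro d
      have h8 := h4 d
      rw [h7, one_smul] at h8
      exact h8.symm
    | one =>
      intro d
      obtain ⟨c, hc⟩ := scal d
      rw [hc]
      exact (Commute.one_right _).smul_right c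
    | mul x y _ _ hx hy =>
      intro d
      obtain ⟨c, hc0, hc⟩ := hmul x y
      rw [hc d]
      exact ((hx d).mul_right (hy d)).smul_right c
    | inv x _ hx =>
      intro d
      obtain ⟨c, hc0, hc⟩ := hmul x x⁻¹
      obtain ⟨c', hc'⟩ := scal d
      have h1 := hc d
      rw [mul_inv_cancel, hc'] at h1
      -- `h1 : c' • 1 = c • (B * B')`
      apply LinearMap.ext
      intro s
      rw [Module.End.mul_apply, Module.End.mul_apply]
      apply hinj x d
      have e1 : ∀ r, (O x).lin d ((O x⁻¹).lin d r) = (c⁻¹ * c') • r := by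
        intro r
        have h2 := LinearMap.congr_fun h1 r
        rw [LinearMap.smul_apply, LinearMap.smul_apply, Module.End.one_apply,
          Module.End.mul_apply] at h2
        rw [mul_smul, h2, smul_smul, inv_mul_cancel₀ hc0, one_smul]
      have e2 := LinearMap.congr_fun (hx d).eq ((O x⁻¹).lin d s)
      rw [Module.End.mul_apply, Module.End.mul_apply] at e2
      rw [← e2, e1, e1, map_smul]
  refine main_le (G := Subgroup.closure L) (T := fun k => T k.1) hE (fun k => O k.1)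
    (fun k => hT k.1) (fun k h d => hcomm k.1 k.2 h.1 h.2 d) (fun k h d => ?_) hP0
    (g := ⟨g, hg⟩) ?_ hml hgP hl3 hQ0 hQ hqp hs
  · obtain ⟨c, hc0, hc⟩ := hmul k.1 h.1
    exact ⟨c, hc0, hc d⟩
  · have h1 : Subgroup.closure (((↑) : Subgroup.closure L → G) ⁻¹' L) = ⊤ :=
      Subgroup.closure_closure_coe_preimage
    have h2 : (⟨g, hg⟩ : Subgroup.closure L) ∈
        Subgroup.closure (((↑) : Subgroup.closure L → G) ⁻¹' L) := by
      rw [h1]
      trivial
    exact h2

theorem main {G : Type*} [CommGroup G]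
    {T : G → ((Fin (n + 1) → ℂ) →ₗ[ℂ] (Fin (n + 1) → ℂ))} (O : ∀ g, GOp E (T g))
    (hT : ∀ g, Function.Injective (T g)) (hT1 : T 1 = LinearMap.id)
    (hTm : ∀ g h, T (g * h) = T g ∘ₗ T h)
    (hmul : ∀ g h, ∃ c : ℂ, c ≠ 0 ∧ ∀ d, (O (g * h)).lin d = c • ((O g).lin d * (O h).lin d))
    {P : Fin (n + 1) → ℂ} (hP0 : P ≠ 0) {g : G}
    (hg : g ∈ Subgroup.closure {h : G | ∃ a : ℂ, T h P = a • P ∧
      3 ≤ Module.finrank ℂ (LinearMap.ker (T h - a • LinearMap.id))})
    {l m : ℂ} (hml : m ≠ l) (hgP : T g P = m • P)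
    (hl3 : 3 ≤ Module.finrank ℂ (LinearMap.ker (T g - l • LinearMap.id)))
    {Q : Fin (n + 1) → ℂ} (hQ0 : Q ≠ 0) (hQ : T g Q = l • Q) {p q : ℤ}
    (hs : E.SplitsOn P Q p q) (hne : (m / l) ^ (p - q) ≠ 1) : E.Splits := by
  by_contra hE
  rcases le_total q p with h | h
  · exact hne (main_eq hE O hT hT1 hTm hmul hP0 hg hml hgP hl3 hQ0 hQ h hs)
  · apply hne
    have h1 := main_eq hE O hT hT1 hTm hmul hP0 hg hml hgP hl3 hQ0 hQ h (splitsOn_swap hs)
    rw [← neg_sub, zpow_neg, h1, inv_one]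

end Pool.Agent.W467.CO
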